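import Pool.Agent.H76.QE.Targets

/-!
# (CPX) the linear density as a complex sum
-/

set_option autoImplicit false

open Finset Pool.Agent.H76.QE
open Pool.Agent.H1.LP (supp ip comb kk S_DISP S_COL S_SMALL)
open Pool.Agent.H73.OX

namespace Pool.Agent.H83.QD

lemma comb_neg {p M N : ℕ} (A : Fin M → Fin N → ZMod p) (C : Fin M → ZMod p) :
    comb A (-C) = -comb A C := by
  funext j
  simp [comb, Finset.sum_neg_distrib]

lemma ip_neg {p B : ℕ} (l z : Fin B → ZMod p) : ip (-l) z = -ip l z := by
  simp [ip, Finset.sum_neg_distrib]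

lemma supp_neg {p B : ℕ} (l : Fin B → ZMod p) : supp (-l) = supp l := by
  unfold supp
  ext j
  simp

theorem pf_CPX : T_CPX := by
  intro p M N τ _ A c z
  set F : (Fin M → ZMod p) → ℂ := fun C => ZMod.stdAddChar (ip (comb A C) z - ip C c) with hF
  have hconj : ∀ C, (starRingEnd ℂ) (F C) = F (-C) := by
    intro C
    simp only [hF]
    rw [conj_std, comb_neg, ip_neg, ip_neg]
    congr 1
    ring
  have hs : (starRingEnd ℂ) (∑ C ∈ CC p M τ, F C) = ∑ C ∈ CC p M τ, F C := by
    rw [map_sum]
    simp only [hconj]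
    refine Finset.sum_equiv (Equiv.neg _) ?_ ?_
    · intro C
      simp only [CC, Finset.mem_filter, Finset.mem_univ, true_and, Equiv.neg_apply, supp_neg]
    · intro C _
      rfl
  have h1 := Complex.conj_eq_iff_re.1 hs
  rw [← h1]
  congr 1
  unfold LD
  rw [Complex.re_sum]

end Pool.Agent.H83.QD
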