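import Pool.Agent.H76.QE.Targets

/-!
# (INE) inclusion and exclusion
-/

set_option autoImplicit false

open Finset Pool.Agent.H76.QE

namespace Pool.Agent.H83.QD

lemma sq_ineq (d : ℤ) : 3 * d ≤ 2 + d ^ 2 := by
  rcases le_or_gt d 1 with h | h
  · nlinarith
  · nlinarith

theorem pf_INE : T_INE := by
  classical
  intro N E z₀ Z hE hz hZ
  by_contra hcon
  push Not at hcon
  have h2E : 1 < 2 * E := by omega
  have hz1 : 1 ≤ z₀ := by
    have h := hcon ⟨0, by omega⟩ ⟨1, h2E⟩ (by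
      intro h
      have := congrArg Fin.val h
      simp at this)
    omega
  have hN : 1 ≤ N := by
    have : 1 ≤ 4 * E ^ 2 * z₀ := by
      have : 0 < 4 * E ^ 2 * z₀ := by positivity
      omega
    omega
  let e : Fin (2 * E) → Fin N → ℤ := fun i x => if x ∈ Z i then 1 else 0
  have hc : ∀ i, (((Z i).card : ℕ) : ℤ) = ∑ x, e i x := by
    intro i
    simp [e]
  have hcc : ∀ i j, (((Z i ∩ Z j).card : ℕ) : ℤ) = ∑ x, e i x * e j x := by
    intro i j
    have h : ∀ x, e i x * e j x = if x ∈ Z i ∩ Z j then (1 : ℤ) else 0 := by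
      intro x
      by_cases h1 : x ∈ Z i <;> by_cases h2 : x ∈ Z j <;> simp [e, h1, h2]
    simp only [h]
    rw [Finset.sum_ite_mem, Finset.univ_inter]
    simp
  set S : ℤ := ∑ i, (((Z i).card : ℕ) : ℤ) with hS
  have hd1 : ∑ x, ∑ i, e i x = S := by
    rw [Finset.sum_comm, hS]
    exact Finset.sum_congr rfl fun i _ => (hc i).symm
  have hd2 : ∑ x, (∑ i, e i x) ^ 2 = ∑ i, ∑ j, (((Z i ∩ Z j).card : ℕ) : ℤ) := by
    have h : ∀ x, (∑ i, e i x) ^ 2 = ∑ i, ∑ j, e i x * e j x := by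
      intro x
      rw [sq, Finset.sum_mul_sum]
    simp only [h, hcc]
    rw [Finset.sum_comm]
    refine Finset.sum_congr rfl fun i _ => ?_
    rw [Finset.sum_comm]
  have hoff : ∀ i, ∑ j, (((Z i ∩ Z j).card : ℕ) : ℤ) ≤
      ((Z i).card : ℤ) - z₀ + 2 * E * z₀ := by
    intro i
    calc ∑ j, (((Z i ∩ Z j).card : ℕ) : ℤ)
        ≤ ∑ j, ((if j = i then ((Z i).card : ℤ) - z₀ else 0) + (z₀ : ℤ)) := by
          refine Finset.sum_le_sum fun j _ => ?_
          by_cases h : j = i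
          · subst h
            simp
          · have h1 := hcon i j (Ne.symm h)
            rw [if_neg h, zero_add]
            exact_mod_cast h1.le
      _ = ((Z i).card : ℤ) - z₀ + 2 * E * z₀ := by
          rw [Finset.sum_add_distrib, Finset.sum_ite_eq' Finset.univ i]
          simp
  have hsum : ∑ i, ∑ j, (((Z i ∩ Z j).card : ℕ) : ℤ) ≤ S + 2 * E * (2 * E * z₀ - z₀) := by
    calc ∑ i, ∑ j, (((Z i ∩ Z j).card : ℕ) : ℤ)
        ≤ ∑ i : Fin (2 * E), (((Z i).card : ℤ) - z₀ + 2 * E * z₀) :=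
          Finset.sum_le_sum fun i _ => hoff i
      _ = S + 2 * E * (2 * E * z₀ - z₀) := by
          have h : ∀ i : Fin (2 * E), ((Z i).card : ℤ) - z₀ + 2 * E * z₀ =
              ((Z i).card : ℤ) + (2 * E * z₀ - z₀) := by
            intro i
            ring
          simp only [h]
          rw [Finset.sum_add_distrib]
          simp [hS]
          ring
  have h3 : 3 * S ≤ 2 * N + (S + 2 * E * (2 * E * z₀ - z₀)) := by
    calc 3 * S = ∑ x : Fin N, 3 * ∑ i, e i x := by rw [← hd1, Finset.mul_sum]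
      _ ≤ ∑ x : Fin N, (2 + (∑ i, e i x) ^ 2) := Finset.sum_le_sum fun x _ => sq_ineq _
      _ = 2 * N + ∑ i, ∑ j, (((Z i ∩ Z j).card : ℕ) : ℤ) := by
          rw [Finset.sum_add_distrib, hd2]
          simp [mul_comm]
      _ ≤ _ := by linarith
  have h4 : 2 * E * N ≤ E * S := by
    have h : ∀ i, (N : ℤ) ≤ E * (Z i).card := by
      intro i
      exact_mod_cast hZ i
    calc (2 * E * N : ℤ) = ∑ _i : Fin (2 * E), (N : ℤ) := by simp
      _ ≤ ∑ i : Fin (2 * E), (E : ℤ) * (Z i).card := Finset.sum_le_sum fun i _ => h i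
      _ = E * S := by rw [hS, Finset.mul_sum]
  have hz' : (4 * E ^ 2 * z₀ : ℤ) ≤ N := by exact_mod_cast hz
  have hE' : (1 : ℤ) ≤ E := by exact_mod_cast hE
  have hN' : (1 : ℤ) ≤ N := by exact_mod_cast hN
  have hz1' : (1 : ℤ) ≤ z₀ := by exact_mod_cast hz1
  have h5 : (2 * E * S : ℤ) ≤ 2 * E * N + E * (4 * E ^ 2 * z₀) - 2 * E ^ 2 * z₀ := by
    nlinarith [mul_le_mul_of_nonneg_left h3 (by linarith : (0 : ℤ) ≤ E)]
  have h6 : (E * (4 * E ^ 2 * z₀) : ℤ) ≤ E * N := mul_le_mul_of_nonneg_left hz' (by linarith)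
  have h7 : (0 : ℤ) < E * N := by positivity
  have h8 : (0 : ℤ) ≤ 2 * E ^ 2 * z₀ := by positivity
  linarith

end Pool.Agent.H83.QD
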