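import Pool.Agent.H76.QE.Targets

/-!
# (STR) wide systems have no stars
-/

set_option autoImplicit false

open Finset Pool.Agent.H76.QE
open Pool.Agent.H1.LP (supp ip comb kk S_DISP S_COL S_SMALL)

namespace Pool.Agent.H83.QD

lemma card_zer {p N : ℕ} (v : Fin N → ZMod p) : (zer v).card + (supp v).card = N := by
  unfold zer supp
  rw [Finset.card_filter_add_card_filter_not]
  simp

theorem pf_STR (hI : T_INE) : T_STR := by
  intro p M N E h t₀ t₁ z₀ _ A hW hE hz hN v C h1 h2
  obtain ⟨i, j, hij, hc⟩ := hI N E z₀ (fun i => zer (v + comb A (C i))) hE hz (by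
    intro i
    refine hN.trans (Nat.mul_le_mul_left E ?_)
    have h3 := card_zer (v + comb A (C i))
    have h4 := h1 i
    omega)
  have h5 := hW (C i - C j) (h2 i j hij).1 (h2 i j hij).2
  have h6 : zer (v + comb A (C i)) ∩ zer (v + comb A (C j)) ⊆ zer (comb A (C i - C j)) := by
    intro l hl
    rw [Finset.mem_inter] at hl
    unfold zer at hl ⊢
    rw [Finset.mem_filter, Finset.mem_filter] at hl
    rw [Finset.mem_filter]
    refine ⟨Finset.mem_univ _, ?_⟩
    have a1 := hl.1.2
    have a2 := hl.2.2
    have a3 : comb A (C i - C j) l = (v + comb A (C i)) l - (v + comb A (C j)) l := by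
      unfold comb
      simp only [Pi.sub_apply, Pi.add_apply, sub_mul, Finset.sum_sub_distrib]
      ring
    rw [a3, a1, a2, sub_zero]
  have h7 := Finset.card_le_card h6
  omega

end Pool.Agent.H83.QD
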